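import Mathlib
import Pool.Agent.R178.CubeMain
import Pool.Agent.R178.SimplexVol

set_option autoImplicit false

namespace Pool.Agent.Results.MP_727085_co.GrowthOrder

/-- `T` is a dissection of `[0,1]^d` into `d`-simplices, each simplex being given by its vertex set
(any `d+1` affinely independent points): the simplices cover exactly the cube and have pairwise
disjoint interiors. -/
def IsDissection (d : ℕ) (T : Finset (Finset (Fin d → ℝ))) : Prop :=
  (∀ S ∈ T, S.card = d + 1 ∧ AffineIndependent ℝ (fun x : S => (x : Fin d → ℝ))) ∧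
  (⋃ S ∈ T, convexHull ℝ (↑S : Set (Fin d → ℝ))) = Set.Icc (0 : Fin d → ℝ) 1 ∧
  (∀ S ∈ T, ∀ S' ∈ T, S ≠ S' →
    Disjoint (interior (convexHull ℝ (↑S : Set (Fin d → ℝ))))
      (interior (convexHull ℝ (↑S' : Set (Fin d → ℝ)))))

/-- the simplexity `S(d)` of the `d`-cube -/
noncomputable def simplexity (d : ℕ) : ℕ :=
  sInf {m : ℕ | ∃ T, IsDissection d T ∧ T.card = m}

lemma interior_hull_eq_empty {d : ℕ} (A : Finset (Fin d → ℝ)) (hA : A.card ≤ d) :
    interior (convexHull ℝ (↑A : Set (Fin d → ℝ))) = ∅ := by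
  classical
  by_contra hne
  rw [← Ne, ← Set.nonempty_iff_ne_empty, interior_convexHull_nonempty_iff_affineSpan_eq_top] at hne
  have hvs : vectorSpan ℝ (↑A : Set (Fin d → ℝ)) = ⊤ := by
    rw [← direction_affineSpan, hne, AffineSubspace.direction_top]
  rcases Finset.eq_empty_or_nonempty A with hAe | hAn
  · rw [hAe, Finset.coe_empty, AffineSubspace.span_empty] at hne
    exact AffineSubspace.bot_ne_top ℝ (Fin d → ℝ) (Fin d → ℝ) hne
  · have hpos : 0 < A.card := hAn.card_pos
    obtain ⟨m, hm⟩ : ∃ m, A.card = m + 1 := ⟨A.card - 1, by omega⟩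
    have h1 := finrank_vectorSpan_image_finset_le ℝ (fun x : Fin d → ℝ => x) A hm
    rw [Finset.image_id', hvs, finrank_top, Module.finrank_fin_fun] at h1
    omega

theorem result (d : ℕ) :
    (∃ T, IsDissection d T ∧ T.card = simplexity d) ∧
    2 ^ d * (d.factorial : ℝ) / Real.sqrt (((d:ℝ) + 1) ^ (d + 1)) ≤ (simplexity d : ℝ) ∧
    (simplexity d : ℝ) ≤ Real.pi ^ d * Real.sqrt ((d.factorial : ℝ) / ((d:ℝ) + 1)) ∧
    (Real.sqrt d / Real.exp 1) ^ d ≤ (simplexity d : ℝ) ∧
    (simplexity d : ℝ) ≤ (Real.pi * Real.sqrt d) ^ d := by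
  classical
  obtain ⟨T, h1, h2, h3, h4⟩ := Pool.R178.exists_small_triangulation d
  have hT : IsDissection d T := by
    refine ⟨fun S hS => ⟨(h1 S hS).1, (h1 S hS).2.1⟩, h2, fun S hS S' hS' hne => ?_⟩
    rw [Set.disjoint_iff_inter_eq_empty, ← interior_inter, h3 S hS S' hS']
    have hlt : (S ∩ S').card < S.card := by
      apply Finset.card_lt_card
      refine Finset.ssubset_iff_subset_ne.2 ⟨Finset.inter_subset_left, fun heq => hne ?_⟩
      have hsub : S ⊆ S' := Finset.inter_eq_left.1 heq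
      exact Finset.eq_of_subset_of_card_le hsub (by rw [(h1 S hS).1, (h1 S' hS').1])
    have hle : (S ∩ S').card ≤ d := by
      have := (h1 S hS).1
      omega
    convert interior_hull_eq_empty (S ∩ S') hle
  have hne : {m : ℕ | ∃ T, IsDissection d T ∧ T.card = m}.Nonempty := ⟨T.card, T, hT, rfl⟩
  obtain ⟨T0, hT0, hc0⟩ := Nat.sInf_mem hne
  have hlow : 2 ^ d * (d.factorial : ℝ) / Real.sqrt (((d:ℝ) + 1) ^ (d + 1)) ≤
      (simplexity d : ℝ) := by
    have := Pool.R178.card_lower_bound T0 (fun S hS => (hT0.1 S hS).1) hT0.2.1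
    rw [hc0] at this
    exact this
  have hup : (simplexity d : ℝ) ≤ Real.pi ^ d * Real.sqrt ((d.factorial : ℝ) / ((d:ℝ) + 1)) := by
    refine le_trans ?_ h4
    have hle : simplexity d ≤ T.card := Nat.sInf_le ⟨T, hT, rfl⟩
    exact_mod_cast hle
  exact ⟨⟨T0, hT0, hc0⟩, hlow, hup, (Pool.R178.lower_simple d).trans hlow,
    hup.trans (Pool.R178.upper_simple d)⟩

end Pool.Agent.Results.MP_727085_co.GrowthOrder
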